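import Mathlib
import Pool.Agent.R466.DC.Cons

/-!
# A definable convex valuation on an ordered field which is dense in its real closure

Let `P` be a countable non-archimedean real closed field of infinite transcendence degree.
`P` has a dense subfield `K` over which `P` is algebraic and such that all `K`-points of the Fermat
cubic `x ^ 3 + y ^ 3 = 1` have algebraic-number coordinates (`K` is built by adjoining one
transcendental element after the other; such extensions create no new points by the polynomial
case of Fermat's Last Theorem).  As `K` contains all algebraic numbers of `P`, the field of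
algebraic numbers is definable in `K`, hence so is the ring of finite elements.
-/

set_option autoImplicit false

namespace Pool.Agent.Results.MP_668d6d_lc.DefinableConvexValuation

open FirstOrder Polynomial Pool.Agent.R466.DC

/-- the relation symbols of the language of ordered rings: one binary symbol `<` -/
inductive ltRel : ℕ → Type
  | lt : ltRel 2

/-- The language of ordered rings: functions `+`, `*`, `-` (unary), `0`, `1`, relation `<`. -/
def Lor : Language := { Functions := ringFunc, Relations := ltRel }

/-- An ordered field as a structure in the language of ordered rings. -/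
@[instance_reducible]
def orStructure (K : Type) [Field K] [LinearOrder K] : Lor.Structure K where
  funMap := fun {n} f => match n, f with
    | _, .add => fun x => x 0 + x 1
    | _, .mul => fun x => x 0 * x 1
    | _, .neg => fun x => -x 0
    | _, .zero => fun _ => 0
    | _, .one => fun _ => 1
  RelMap := fun {n} r => match n, r with
    | _, .lt => fun x => x 0 < x 1

/-- `s` is definable in the ordered field `K` in the language of ordered rings, without
parameters. -/
def IsOrDefinable (K : Type) [Field K] [LinearOrder K] (s : Set K) : Prop :=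
  letI := orStructure K
  (∅ : Set K).Definable₁ Lor s

/-- `R` is a real closure of the ordered field `K`: a real closed ordered field, algebraic over
`K`, whose order extends that of `K`. -/
structure IsRealClosure (K R : Type) [Field K] [LinearOrder K] [Field R] [LinearOrder R]
    [Algebra K R] : Prop where
  ordered : IsStrictOrderedRing R
  realClosed : IsRealClosed R
  algebraic : Algebra.IsAlgebraic K R
  strictMono : StrictMono (algebraMap K R)

/-- `K` is dense in its real closure `R`: every nonempty open interval of `R` contains an element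
of `K`. -/
def DenseInRealClosure (K : Type) [Field K] [LinearOrder K] : Prop :=
  ∃ (R : Type) (_ : Field R) (_ : LinearOrder R) (_ : Algebra K R), IsRealClosure K R ∧
    ∀ a b : R, a < b → ∃ c : K, a < algebraMap K R c ∧ algebraMap K R c < b

section formula

open Language

variable {K : Type} [Field K] [LinearOrder K]

/-- variables of the formula: the free variable and the two quantified ones -/
abbrev tm (n : ℕ) := Lor.Term (Fin 1 ⊕ Fin n)

def tadd {n : ℕ} (s t : tm n) : tm n := Functions.apply₂ (L := Lor) ringFunc.add s t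
def tmul {n : ℕ} (s t : tm n) : tm n := Functions.apply₂ (L := Lor) ringFunc.mul s t
def tneg {n : ℕ} (s : tm n) : tm n := Functions.apply₁ (L := Lor) ringFunc.neg s
def tone {n : ℕ} : tm n := Constants.term (L := Lor) ringFunc.one

/-- `∃ x y, x³ + y³ = 1 ∧ a < x ∧ -x < a` -/
def phi : Lor.Formula (Fin 1) :=
  (((Term.bdEqual
      (tadd (tmul (tmul (&0) (&0)) (&0)) (tmul (tmul (&1) (&1)) (&1))) tone :
        Lor.BoundedFormula (Fin 1) 2) ⊓
    ((Relations.boundedFormula₂ (L := Lor) ltRel.lt (Term.var (Sum.inl 0)) (&0)) ⊓
      (Relations.boundedFormula₂ (L := Lor) ltRel.lt (tneg (&0)) (Term.var (Sum.inl 0))))).ex).ex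

theorem realize_phi (a : K) :
    letI := orStructure K
    phi.Realize (fun _ : Fin 1 => a) ↔ ∃ x y : K, x ^ 3 + y ^ 3 = 1 ∧ a < x ∧ -x < a := by
  let _ := orStructure K
  rw [Formula.Realize, phi, BoundedFormula.realize_ex]
  refine exists_congr fun x => ?_
  rw [BoundedFormula.realize_ex]
  refine exists_congr fun y => ?_
  rw [BoundedFormula.realize_inf, BoundedFormula.realize_inf, BoundedFormula.realize_bdEqual]
  have e2 : x ^ 3 + y ^ 3 = x * x * x + y * y * y := by ring
  rw [e2]
  exact Iff.rfl

end formula

/-- algebraic numbers are finite -/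
theorem bounded_of_algebraic {P : Type} [Field P] [LinearOrder P] [IsStrictOrderedRing P] {x : P}
    (hx : IsAlgebraic ℚ x) : ∃ n : ℕ, |x| < n := by
  obtain ⟨p, hp, h0⟩ := hx
  by_cases h1 : |x| < 1
  · exact ⟨1, by simpa using h1⟩
  push Not at h1
  set f : P[X] := p.map (algebraMap ℚ P) with hf
  have hf0 : f ≠ 0 := by
    rw [hf, Ne, Polynomial.map_eq_zero_iff (algebraMap ℚ P).injective]
    exact hp
  have hfx : f.eval x = 0 := by
    rw [hf, eval_map, ← aeval_def]
    exact h0
  have hdeg : 0 < f.natDegree := by
    rw [Nat.pos_iff_ne_zero]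
    intro h
    obtain ⟨c, hc⟩ := natDegree_eq_zero.1 h
    rw [← hc, eval_C] at hfx
    rw [← hc, hfx, C_0] at hf0
    exact hf0 rfl
  have hnd : f.natDegree = p.natDegree := by
    rw [hf, natDegree_map_eq_of_injective (algebraMap ℚ P).injective]
  have hlead : f.leadingCoeff ≠ 0 := leadingCoeff_ne_zero.2 hf0
  have h2 : |f.leadingCoeff| * |x| ≤ ∑ i ∈ Finset.range f.natDegree, |f.coeff i| := by
    by_contra hcon
    push Not at hcon
    have h3 := Pool.Agent.W894.EIP.lead_dom f hdeg x h1 hcon
    rw [hfx, zero_sub, abs_neg] at h3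
    exact lt_irrefl _ h3
  obtain ⟨n, hn⟩ := exists_nat_gt ((∑ i ∈ Finset.range p.natDegree, |p.coeff i|) / |p.leadingCoeff|)
  refine ⟨n, ?_⟩
  have hl : |f.leadingCoeff| = ((|p.leadingCoeff| : ℚ) : P) := by
    rw [hf, leadingCoeff_map]
    push_cast
    rfl
  have hs : ∑ i ∈ Finset.range f.natDegree, |f.coeff i| =
      ((∑ i ∈ Finset.range p.natDegree, |p.coeff i| : ℚ) : P) := by
    rw [hnd]
    push_cast
    refine Finset.sum_congr rfl fun i _ => ?_
    rw [hf, coeff_map]
    rfl
  have hlpos : (0 : ℚ) < |p.leadingCoeff| := abs_pos.2 (leadingCoeff_ne_zero.2 hp)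
  rw [div_lt_iff₀ hlpos] at hn
  have hn' : ((∑ i ∈ Finset.range p.natDegree, |p.coeff i| : ℚ) : P)
      < (n : P) * ((|p.leadingCoeff| : ℚ) : P) := by
    have := (Rat.cast_lt (K := P)).2 hn
    push_cast at this ⊢
    exact this
  rw [hl, hs] at h2
  have hlpos' : (0 : P) < ((|p.leadingCoeff| : ℚ) : P) := by exact_mod_cast hlpos
  nlinarith

/-- the ring of finite elements of an ordered field -/
def finVal (K : Type) [Field K] [LinearOrder K] [IsStrictOrderedRing K] : ValuationSubring K where
  carrier := {a | ∃ n : ℕ, |a| < n}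
  mul_mem' := by
    rintro a b ⟨n, hn⟩ ⟨m, hm⟩
    refine ⟨n * m, ?_⟩
    rw [abs_mul]
    push_cast
    exact mul_lt_mul'' hn hm (abs_nonneg _) (abs_nonneg _)
  one_mem' := ⟨2, by norm_num⟩
  add_mem' := by
    rintro a b ⟨n, hn⟩ ⟨m, hm⟩
    refine ⟨n + m, ?_⟩
    push_cast
    exact lt_of_le_of_lt (abs_add_le a b) (add_lt_add hn hm)
  zero_mem' := ⟨1, by norm_num⟩
  neg_mem' := by
    rintro a ⟨n, hn⟩
    exact ⟨n, by rwa [abs_neg]⟩
  mem_or_inv_mem' := by
    intro a
    by_cases h : |a| < 2
    · exact Or.inl ⟨2, by exact_mod_cast h⟩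
    · right
      push Not at h
      refine ⟨1, ?_⟩
      rw [abs_inv, Nat.cast_one]
      exact inv_lt_one_of_one_lt₀ (by linarith)

theorem mem_finVal {K : Type} [Field K] [LinearOrder K] [IsStrictOrderedRing K] {a : K} :
    a ∈ finVal K ↔ ∃ n : ℕ, |a| < n := Iff.rfl

/-- **Main theorem.**  There is an ordered field `K` which is dense in its real closure and has a
non-trivial convex valuation ring which is definable (even without parameters) in the language of
ordered rings. -/
theorem result : ∃ (K : Type) (_ : Field K) (_ : LinearOrder K) (_ : IsStrictOrderedRing K),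
    DenseInRealClosure K ∧ ∃ V : ValuationSubring K, V ≠ ⊤ ∧ (V : Set K).OrdConnected ∧
      IsOrDefinable K (V : Set K) := by
  obtain ⟨P, hPc, hPr, hPf, w, hw⟩ := exists_P
  obtain ⟨K, hK1, hK2, hK3, hK4⟩ := exists_K (P := P) hPf
  refine ⟨K, inferInstance, inferInstance, inferInstance,
    ⟨P, inferInstance, inferInstance, inferInstance, ⟨inferInstance, hPr, ⟨hK3⟩, ?_⟩, ?_⟩,
    finVal K, ?_, ?_, ?_⟩
  · intro a b hab
    exact hab
  · intro a b hab
    obtain ⟨u, hu, h1, h2⟩ := hK4 a b hab
    exact ⟨⟨u, hu⟩, h1, h2⟩
  · intro htop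
    obtain ⟨u, hu, h1, h2⟩ := hK4 w (w + 1) (by linarith)
    have h3 : (⟨u, hu⟩ : K) ∈ finVal K := by
      rw [htop]
      exact ValuationSubring.mem_top _
    obtain ⟨n, hn⟩ := mem_finVal.1 h3
    have h4 : u < n := by
      have := lt_of_le_of_lt (le_abs_self _) hn
      exact_mod_cast this
    exact lt_irrefl _ ((hw n).trans (h1.trans h4))
  · refine ⟨?_⟩
    rintro a ⟨n, hn⟩ b ⟨m, hm⟩ c ⟨hac, hcb⟩
    refine ⟨max n m, ?_⟩
    rw [abs_lt] at hn hm ⊢
    push_cast
    constructor
    · refine lt_of_le_of_lt ?_ (lt_of_lt_of_le hn.1 hac)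
      exact neg_le_neg (le_max_left _ _)
    · exact lt_of_le_of_lt hcb (lt_of_lt_of_le hm.2 (le_max_right _ _))
  · have hset : ((finVal K : ValuationSubring K) : Set K) =
        {a : K | ∃ x y : K, x ^ 3 + y ^ 3 = 1 ∧ a < x ∧ -x < a} := by
      ext a
      constructor
      · rintro ⟨n, hn⟩
        obtain ⟨r, hr⟩ := IsRealClosed.exists_eq_pow_of_odd (R := P) (1 - (n : P) ^ 3)
          (n := 3) (by decide)
        have hralg : IsAlgebraic ℚ r := by
          refine ⟨X ^ 3 - C (1 - (n : ℚ) ^ 3), ?_, ?_⟩
          · exact (monic_X_pow_sub_C (1 - (n : ℚ) ^ 3) (by norm_num)).ne_zero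
          · simp only [map_sub, map_pow, aeval_X, map_one, map_natCast]
            rw [← hr]
            ring
        refine ⟨(n : K), ⟨r, hK1 r hralg⟩, ?_, ?_, ?_⟩
        · apply Subtype.ext
          push_cast
          linear_combination -hr
        · exact (abs_lt.1 hn).2
        · exact (abs_lt.1 hn).1
      · rintro ⟨x, y, hxy, h1, h2⟩
        have hxalg : IsAlgebraic ℚ (x : P) := by
          refine hK2 x x.2 y y.2 ?_
          have := congrArg (fun z : K => (z : P)) hxy
          simpa using this
        obtain ⟨n, hn⟩ := bounded_of_algebraic hxalg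
        refine ⟨n, ?_⟩
        have h3 : |a| < x := abs_lt.2 ⟨h2, h1⟩
        have h4 : (x : K) < n := by
          have h5 : (x : P) < n := lt_of_le_of_lt (le_abs_self _) hn
          exact_mod_cast h5
        exact h3.trans h4
    rw [hset]
    unfold IsOrDefinable
    let _ := orStructure K
    show (∅ : Set K).Definable₁ Lor _
    unfold Set.Definable₁
    rw [Set.empty_definable_iff]
    refine ⟨phi, ?_⟩
    ext v
    have hv : v = fun _ : Fin 1 => v 0 := by
      funext i
      rw [Subsingleton.elim i 0]
    show (∃ x y : K, x ^ 3 + y ^ 3 = 1 ∧ v 0 < x ∧ -x < v 0) ↔ phi.Realize v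
    rw [hv]
    exact (realize_phi (v 0)).symm

end Pool.Agent.Results.MP_668d6d_lc.DefinableConvexValuation
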